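import Mathlib

set_option autoImplicit false

namespace Pool.Agent.Work.MP_7d59ed_nt

/-- `s₂(n)`: the number of ones in the binary expansion of `n`. -/
def s2 (n : ℕ) : ℕ := (Nat.digits 2 n).count 1

/-- The Prouhet-Thue-Morse sequence with values `±1`. -/
def t (n : ℕ) : ℤ := (-1) ^ s2 n

/-- The Thue-Morse-twisted Fibonacci sequence. -/
def h : ℕ → ℤ
  | 0 => 0
  | 1 => 1
  | n + 2 => t (n + 2) * h (n + 1) + h n

end Pool.Agent.Work.MP_7d59ed_nt
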