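import Mathlib
import Pool.Agent.Work.MP_7d59ed_nt.Defs

set_option autoImplicit false

namespace Pool.Agent.Work.MP_7d59ed_nt

lemma t_zero : t 0 = 1 := by simp [t, s2]

lemma t_two_mul (n : ℕ) : t (2 * n) = t n := by
  rcases Nat.eq_zero_or_pos n with rfl | hn
  · rfl
  · unfold t s2
    rw [Nat.digits_def' (by norm_num) (by omega)]
    have h1 : 2 * n % 2 = 0 := by omega
    have h2 : 2 * n / 2 = n := by omega
    rw [h1, h2, List.count_cons]
    simp

lemma t_two_mul_add_one (n : ℕ) : t (2 * n + 1) = -t n := by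
  unfold t s2
  rw [Nat.digits_def' (by norm_num) (by omega)]
  have h1 : (2 * n + 1) % 2 = 1 := by omega
  have h2 : (2 * n + 1) / 2 = n := by omega
  rw [h1, h2, List.count_cons]
  simp [pow_succ]

lemma t_mul_self (n : ℕ) : t n * t n = 1 := by
  unfold t
  rw [← pow_add, ← two_mul, pow_mul]
  norm_num

/-- The coefficients `e(n) = -t(n) t(n-1)`. -/
def e (n : ℕ) : ℤ := -(t n * t (n - 1))

lemma e_odd (m : ℕ) : e (2 * m + 1) = 1 := by
  unfold e
  rw [Nat.add_sub_cancel, t_two_mul, t_two_mul_add_one]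
  have := t_mul_self m
  linarith

lemma e_even (m : ℕ) (hm : 1 ≤ m) : e (2 * m) = -e m := by
  unfold e
  obtain ⟨i, rfl⟩ : ∃ i, m = i + 1 := ⟨m - 1, by omega⟩
  have h1 : 2 * (i + 1) - 1 = 2 * i + 1 := by omega
  rw [h1, t_two_mul, t_two_mul_add_one, Nat.add_sub_cancel]
  ring

lemma e_two_pow (k : ℕ) : e (2 ^ k) = (-1) ^ k := by
  induction k with
  | zero => exact e_odd 0
  | succ k ih =>
    rw [pow_succ, mul_comm, e_even _ Nat.one_le_two_pow, ih, pow_succ]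
    ring

lemma e_periodic (k : ℕ) : ∀ j m : ℕ, 0 < j → j < 2 ^ k → e (2 ^ k * m + j) = e j := by
  induction k with
  | zero => intro j m h0 h1; simp at h1; omega
  | succ k ih =>
    intro j m h0 h1
    rcases Nat.even_or_odd' j with ⟨i, rfl | rfl⟩
    · have h2 : 2 ^ (k + 1) * m + 2 * i = 2 * (2 ^ k * m + i) := by ring
      rw [h2, e_even _ (by omega), e_even _ (by omega), ih i m (by omega) (by rw [pow_succ] at h1; omega)]
    · have h2 : 2 ^ (k + 1) * m + (2 * i + 1) = 2 * (2 ^ k * m + i) + 1 := by ring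
      rw [h2, e_odd, e_odd]

lemma e_eq (n : ℕ) : e n = 1 ∨ e n = -1 := by
  have h1 : e n * e n = 1 := by
    unfold e
    have h2 := t_mul_self n
    have h3 := t_mul_self (n - 1)
    calc -(t n * t (n - 1)) * -(t n * t (n - 1)) = (t n * t n) * (t (n - 1) * t (n - 1)) := by ring
      _ = 1 := by rw [h2, h3]; norm_num
  exact mul_self_eq_one_iff.mp h1

/-- Sequences satisfying the reduced recurrence. -/
def Rec (x : ℕ → ℤ) : Prop := ∀ n, x (n + 2) = x (n + 1) + e (n + 2) * x n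

lemma h_odd (n : ℕ) : h (2 * n + 3) = t (2 * n + 3) * h (2 * n) := by
  have h1 : h (2 * n + 3) = t (2 * n + 3) * h (2 * n + 2) + h (2 * n + 1) := rfl
  have h2 : h (2 * n + 2) = t (2 * n + 2) * h (2 * n + 1) + h (2 * n) := rfl
  have h3 : t (2 * n + 3) = -t (n + 1) := t_two_mul_add_one (n + 1)
  have h4 : t (2 * n + 2) = t (n + 1) := t_two_mul (n + 1)
  have h5 := t_mul_self (n + 1)
  rw [h1, h2, h3, h4]
  linear_combination (-h (2 * n + 1)) * h5

lemma h_even_rec : Rec (fun n => h (2 * n)) := by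
  intro n
  have h1 : h (2 * n + 4) = t (2 * n + 4) * h (2 * n + 3) + h (2 * n + 2) := rfl
  have h3 : t (2 * n + 3) = -t (n + 1) := t_two_mul_add_one (n + 1)
  have h4 : t (2 * n + 4) = t (n + 2) := t_two_mul (n + 2)
  show h (2 * (n + 2)) = h (2 * (n + 1)) + e (n + 2) * h (2 * n)
  have h6 : 2 * (n + 2) = 2 * n + 4 := by ring
  have h7 : 2 * (n + 1) = 2 * n + 2 := by ring
  rw [h6, h7, h1, h_odd, h3, h4]
  unfold e
  rw [show n + 2 - 1 = n + 1 by omega]
  ring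

/-- The fundamental solution with `w 0 = 0`, `w 1 = 1`. -/
def w : ℕ → ℤ
  | 0 => 0
  | 1 => 1
  | n + 2 => w (n + 1) + e (n + 2) * w n

/-- The fundamental solution with `p 0 = 1`, `p 1 = 1`. -/
def p : ℕ → ℤ
  | 0 => 1
  | 1 => 1
  | n + 2 => p (n + 1) + e (n + 2) * p n

lemma rec_w : Rec w := fun _ => rfl
lemma rec_p : Rec p := fun _ => rfl

lemma h_even (n : ℕ) : h (2 * n) = -w n := by
  induction n using Nat.twoStepInduction with
  | zero => rfl
  | one =>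
    show t 2 * 1 + 0 = -1
    have := t_two_mul 1
    have h2 := t_two_mul_add_one 0
    rw [mul_one] at this
    rw [this]
    rw [mul_zero, zero_add, t_zero] at h2
    rw [h2]
    norm_num
  | more n ih1 ih2 =>
    have h1 := h_even_rec n
    simp only at h1
    rw [h1, ih1, ih2, rec_w n]
    ring

/-- Nonnegativity propagates. -/
lemma Rec.ge {x : ℕ → ℤ} (hx : Rec x) (c : ℤ) (hc : 0 ≤ c) (h1 : c ≤ x 1) (h2 : c ≤ x 2) :
    ∀ n, 1 ≤ n → c ≤ x n := by
  intro n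
  induction n using Nat.strong_induction_on with
  | _ n ih =>
    intro hn
    by_cases hn1 : n = 1
    · rw [hn1]; exact h1
    by_cases hn2 : n = 2
    · rw [hn2]; exact h2
    obtain ⟨m, rfl⟩ : ∃ m, n = m + 3 := ⟨n - 3, by omega⟩
    have h3 : x (m + 3) = x (m + 2) + e (m + 3) * x (m + 1) := hx (m + 1)
    have h4 := ih (m + 2) (by omega) (by omega)
    have h5 := ih (m + 1) (by omega) (by omega)
    rcases e_eq (m + 3) with he | he
    · rw [h3, he]; linarith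
    · -- `m+3` is even, so `m + 2` is odd
      rcases Nat.even_or_odd' (m + 3) with ⟨i, hi | hi⟩
      · have h6 : e (m + 2) = 1 := by
          have : m + 2 = 2 * (i - 1) + 1 := by omega
          rw [this]; exact e_odd _
        have h7 : x (m + 2) = x (m + 1) + e (m + 2) * x m := hx m
        have h8 : 1 ≤ m := by omega
        have h9 := ih m (by omega) h8
        rw [h3, he, h7, h6]
        linarith
      · rw [hi, e_odd] at he
        norm_num at he

lemma e_two : e 2 = -1 := by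
  have := e_two_pow 1
  simpa using this

lemma w_pos (n : ℕ) (hn : 1 ≤ n) : 1 ≤ w n := by
  refine rec_w.ge 1 (by norm_num) ?_ ?_ n hn
  · exact le_rfl
  · show 1 ≤ w 1 + e 2 * w 0
    rw [show w 0 = 0 from rfl, show w 1 = 1 from rfl]
    norm_num

lemma w_nonneg (n : ℕ) : 0 ≤ w n := by
  rcases Nat.eq_zero_or_pos n with rfl | hn
  · exact le_rfl
  · have := w_pos n hn; linarith

lemma p_nonneg (n : ℕ) : 0 ≤ p n := by
  rcases Nat.eq_zero_or_pos n with rfl | hn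
  · show (0 : ℤ) ≤ 1
    norm_num
  · refine rec_p.ge 0 le_rfl ?_ ?_ n hn
    · show (0 : ℤ) ≤ 1
      norm_num
    · show 0 ≤ p 1 + e 2 * p 0
      rw [show p 0 = 1 from rfl, show p 1 = 1 from rfl, e_two]
      norm_num

lemma p_le_w (n : ℕ) (hn : 1 ≤ n) : p n ≤ w n := by
  have hr : Rec (fun n => w n - p n) := by
    intro n
    simp only [rec_w n, rec_p n]
    ring
  have := hr.ge 0 le_rfl ?_ ?_ n hn
  · linarith
  · show (0 : ℤ) ≤ 1 - 1
    norm_num
  · show 0 ≤ (w 1 + e 2 * w 0) - (p 1 + e 2 * p 0)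
    rw [show p 0 = 1 from rfl, show p 1 = 1 from rfl, show w 0 = 0 from rfl,
      show w 1 = 1 from rfl, e_two]
    norm_num

/-- The splitting formula. -/
lemma split {x : ℕ → ℤ} (hx : Rec x) (k : ℕ) (hk : 1 ≤ k) :
    ∀ r, r < 2 ^ k → x (2 ^ k + r) = p r * x (2 ^ k) + w r * x (2 ^ k - 1) := by
  intro r
  induction r using Nat.twoStepInduction with
  | zero =>
    intro _
    rw [show p 0 = 1 from rfl, show w 0 = 0 from rfl, add_zero]
    ring
  | one =>
    intro _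
    obtain ⟨m, hm⟩ : ∃ m, 2 ^ k = m + 1 := ⟨2 ^ k - 1, by have := Nat.one_le_two_pow (n := k); omega⟩
    have h1 : e (2 ^ k + 1) = 1 := by
      have h2 := e_periodic k 1 1 (by norm_num) (Nat.one_lt_two_pow (by omega))
      rw [mul_one] at h2
      rw [h2]
      exact e_odd 0
    rw [hm] at h1 ⊢
    rw [Nat.add_sub_cancel, hx m, h1, show p 1 = 1 from rfl, show w 1 = 1 from rfl]
    ring
  | more r ih1 ih2 =>
    intro hr
    have h1 := ih1 (by omega)
    have h2 := ih2 (by omega)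
    have h3 : e (2 ^ k + (r + 2)) = e (r + 2) := by
      have h2 := e_periodic k (r + 2) 1 (by omega) hr
      rwa [mul_one] at h2
    have h4 : x (2 ^ k + (r + 2)) = x (2 ^ k + (r + 1)) + e (2 ^ k + (r + 2)) * x (2 ^ k + r) :=
      hx (2 ^ k + r)
    rw [h4, h3, h2, h1, rec_p r, rec_w r]
    ring

/-- `b k = w (2^k - 1)`. -/
def b (k : ℕ) : ℤ := w (2 ^ k - 1)

lemma b_pos (k : ℕ) (hk : 1 ≤ k) : 1 ≤ b k := by
  apply w_pos
  have : 2 ≤ 2 ^ k := by
    calc 2 = 2 ^ 1 := by norm_num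
      _ ≤ 2 ^ k := Nat.pow_le_pow_right (by norm_num) hk
  omega

lemma two_le_pow (k : ℕ) (hk : 1 ≤ k) : 2 ≤ 2 ^ k := by
  calc 2 = 2 ^ 1 := by norm_num
    _ ≤ 2 ^ k := Nat.pow_le_pow_right (by norm_num) hk

/-- `w (2^k - 2) ≤ w (2^k - 1)`. -/
lemma w_sub_two_le (k : ℕ) (hk : 1 ≤ k) : w (2 ^ k - 2) ≤ b k := by
  obtain ⟨j, rfl⟩ : ∃ j, k = j + 1 := ⟨k - 1, by omega⟩
  unfold b
  have h1 : 1 ≤ 2 ^ j := Nat.one_le_two_pow
  rcases Nat.lt_or_ge (2 ^ j) 2 with h2 | h2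
  · have h3 : 2 ^ j = 1 := by omega
    rw [pow_succ, h3]
    show (0 : ℤ) ≤ 1
    norm_num
  · obtain ⟨m, hm⟩ : ∃ m, 2 ^ j = m + 2 := ⟨2 ^ j - 2, by omega⟩
    have h4 : 2 ^ (j + 1) - 1 = (2 * m + 1) + 2 := by rw [pow_succ]; omega
    have h5 : 2 ^ (j + 1) - 2 = (2 * m + 1) + 1 := by rw [pow_succ]; omega
    have h6 : e (2 * m + 1 + 2) = 1 := by
      have := e_odd (m + 1)
      rw [show 2 * (m + 1) + 1 = 2 * m + 1 + 2 by ring] at this
      exact this
    have h7 : w (2 * m + 1 + 2) = w (2 * m + 1 + 1) + e (2 * m + 1 + 2) * w (2 * m + 1) :=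
      rec_w (2 * m + 1)
    rw [h4, h5, h7, h6]
    have := w_nonneg (2 * m + 1)
    linarith

lemma w_pow_eq (k : ℕ) (hk : 1 ≤ k) : w (2 ^ k) = b k + (-1) ^ k * w (2 ^ k - 2) := by
  unfold b
  have h2 := two_le_pow k hk
  obtain ⟨m, hm⟩ : ∃ m, 2 ^ k = m + 2 := ⟨2 ^ k - 2, by omega⟩
  have h3 := rec_w m
  have h4 := e_two_pow k
  rw [hm] at h4 ⊢
  rw [h3, h4, Nat.add_sub_cancel]
  rfl

lemma p_pow_eq (k : ℕ) (hk : 1 ≤ k) : p (2 ^ k) = p (2 ^ k - 1) + (-1) ^ k * p (2 ^ k - 2) := by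
  have h2 := two_le_pow k hk
  obtain ⟨m, hm⟩ : ∃ m, 2 ^ k = m + 2 := ⟨2 ^ k - 2, by omega⟩
  have h3 := rec_p m
  have h4 := e_two_pow k
  rw [hm] at h4 ⊢
  rw [h3, h4, Nat.add_sub_cancel]
  rfl

lemma w_pow_le (k : ℕ) (hk : 1 ≤ k) : w (2 ^ k) ≤ 2 * b k := by
  rw [w_pow_eq k hk]
  have h1 := w_sub_two_le k hk
  have h2 := w_nonneg (2 ^ k - 2)
  rcases neg_one_pow_eq_or ℤ k with h | h <;> rw [h] <;> linarith

/-- `b k ≤ 2 w (2^k)`. -/
lemma b_le (k : ℕ) (hk : 1 ≤ k) : b k ≤ 2 * w (2 ^ k) := by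
  rcases Nat.lt_or_ge k 2 with h1 | h1
  · have : k = 1 := by omega
    subst this
    show (1 : ℤ) ≤ 2 * w 2
    have := w_pos 2 (by norm_num)
    linarith
  · obtain ⟨j, rfl⟩ : ∃ j, k = j + 2 := ⟨k - 2, by omega⟩
    obtain ⟨i, hi⟩ : ∃ i, 2 ^ j = i + 1 := ⟨2 ^ j - 1, by
      have := Nat.one_le_two_pow (n := j); omega⟩
    have h2 : 2 ^ (j + 2) = 4 * i + 4 := by rw [pow_add, hi]; ring
    unfold b
    have e1 : w (4 * i + 4) = w (4 * i + 3) + e (4 * i + 4) * w (4 * i + 2) := rec_w _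
    have e2 : w (4 * i + 3) = w (4 * i + 2) + e (4 * i + 3) * w (4 * i + 1) := rec_w _
    have e3 : w (4 * i + 2) = w (4 * i + 1) + e (4 * i + 2) * w (4 * i) := rec_w _
    have f2 : e (4 * i + 3) = 1 := by
      have := e_odd (2 * i + 1)
      rw [show 2 * (2 * i + 1) + 1 = 4 * i + 3 by ring] at this
      exact this
    have f3 : e (4 * i + 2) = -1 := by
      have := e_even (2 * i + 1) (by omega)
      rw [e_odd, show 2 * (2 * i + 1) = 4 * i + 2 by ring] at this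
      exact this
    have g1 := w_nonneg (4 * i + 2)
    have g2 := w_nonneg (4 * i + 1)
    have g3 := w_nonneg (4 * i)
    rw [h2, show 4 * i + 4 - 1 = 4 * i + 3 by omega]
    rw [f3] at e3
    rw [f2] at e2
    rcases e_eq (4 * i + 4) with he | he
    · rw [he] at e1; linarith
    · rw [he] at e1; linarith

/-- Lower bound for `w (2^k + r)`. -/
lemma w_lower (k r : ℕ) (hk : 1 ≤ k) (hr : r < 2 ^ k) : w r * b k ≤ w (2 ^ k + r) := by
  rw [split rec_w k hk r hr]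
  have h1 := p_nonneg r
  have h2 := w_nonneg (2 ^ k)
  have : 0 ≤ p r * w (2 ^ k) := mul_nonneg h1 h2
  unfold b
  linarith

lemma w_upper (k r : ℕ) (hk : 1 ≤ k) (hr : r < 2 ^ k) (hr1 : 1 ≤ r) :
    w (2 ^ k + r) ≤ 3 * (w r * b k) := by
  rw [split rec_w k hk r hr]
  have h1 := p_le_w r hr1
  have h2 := w_pow_le k hk
  have h3 := w_nonneg r
  have h4 := w_nonneg (2 ^ k)
  have h5 : p r * w (2 ^ k) ≤ w r * (2 * b k) := mul_le_mul h1 h2 h4 h3
  have h6 : w (2 ^ k - 1) = b k := rfl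
  rw [h6]
  linarith

lemma b_succ_ge (k : ℕ) (hk : 1 ≤ k) : b k ^ 2 ≤ b (k + 1) := by
  have h2 := two_le_pow k hk
  have h1 := w_lower k (2 ^ k - 1) hk (by omega)
  have h3 : 2 ^ k + (2 ^ k - 1) = 2 ^ (k + 1) - 1 := by rw [pow_succ]; omega
  rw [h3] at h1
  have h4 : b k ^ 2 = w (2 ^ k - 1) * b k := by unfold b; ring
  rw [h4]
  exact h1

lemma b_succ_le (k : ℕ) (hk : 1 ≤ k) : b (k + 1) ≤ 3 * b k ^ 2 := by
  have h2 := two_le_pow k hk
  have h1 := w_upper k (2 ^ k - 1) hk (by omega) (by omega)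
  have h3 : 2 ^ k + (2 ^ k - 1) = 2 ^ (k + 1) - 1 := by rw [pow_succ]; omega
  rw [h3] at h1
  have h4 : b k ^ 2 = w (2 ^ k - 1) * b k := by unfold b; ring
  rw [h4]
  exact h1

end Pool.Agent.Work.MP_7d59ed_nt
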