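import Mathlib
import Pool.Agent.Work.MP_7d59ed_nt.Basic

set_option autoImplicit false

namespace Pool.Agent.Work.MP_7d59ed_nt

open Filter Topology

/-- Existence of the growth constant for `b`. -/
lemma exists_G : ∃ G : ℝ, 0 < G ∧ ∀ k, 1 ≤ k →
    (b k : ℝ) ≤ G ^ (2 ^ k) ∧ G ^ (2 ^ k) ≤ 3 * (b k : ℝ) := by
  have hB1 : ∀ k, 1 ≤ k → (1 : ℝ) ≤ b k := fun k hk => by exact_mod_cast b_pos k hk
  have hge : ∀ k, 1 ≤ k → ((b k : ℝ)) ^ 2 ≤ b (k + 1) := fun k hk => by
    exact_mod_cast b_succ_ge k hk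
  have hle : ∀ k, 1 ≤ k → (b (k + 1) : ℝ) ≤ 3 * (b k : ℝ) ^ 2 := fun k hk => by
    exact_mod_cast b_succ_le k hk
  set β : ℕ → ℝ := fun k => Real.log (b (k + 1)) / 2 ^ (k + 1) with hβ
  set δ : ℕ → ℝ := fun k => Real.log (3 * b (k + 1)) / 2 ^ (k + 1) with hδ
  have hmono : Monotone β := by
    apply monotone_nat_of_le_succ
    intro k
    simp only [hβ]
    rw [div_le_div_iff₀ (by positivity) (by positivity), pow_succ (2 : ℝ) (k + 1)]
    have h1 := Real.log_le_log (by have := hB1 (k + 1) (by omega); positivity) (hge (k + 1) (by omega))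
    rw [Real.log_pow] at h1
    push_cast at h1
    have h2 : (0 : ℝ) < 2 ^ (k + 1) := by positivity
    nlinarith
  have hanti : Antitone δ := by
    apply antitone_nat_of_succ_le
    intro k
    simp only [hδ]
    rw [div_le_div_iff₀ (by positivity) (by positivity), pow_succ (2 : ℝ) (k + 1)]
    have hb := hB1 (k + 1) (by omega)
    have hb2 := hB1 (k + 1 + 1) (by omega)
    have h0 : 3 * (b (k + 1 + 1) : ℝ) ≤ (3 * b (k + 1)) ^ 2 := by
      have := hle (k + 1) (by omega)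
      nlinarith
    have h1 := Real.log_le_log (by positivity) h0
    rw [Real.log_pow] at h1
    push_cast at h1
    have h2 : (0 : ℝ) < 2 ^ (k + 1) := by positivity
    nlinarith
  have hle2 : ∀ k, β k ≤ δ k := by
    intro k
    have hb := hB1 (k + 1) (by omega)
    simp only [hβ, hδ]
    apply div_le_div_of_nonneg_right _ (by positivity)
    apply Real.log_le_log (by positivity)
    linarith
  have hbdd : BddAbove (Set.range β) := by
    refine ⟨δ 0, ?_⟩
    rintro _ ⟨k, rfl⟩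
    exact (hle2 k).trans (hanti (Nat.zero_le k))
  set Γ := ⨆ k, β k with hΓ
  have h1 : ∀ k, β k ≤ Γ := fun k => le_ciSup hbdd k
  have h2 : ∀ k, Γ ≤ δ k := by
    intro k
    apply ciSup_le
    intro j
    rcases le_total j k with h | h
    · exact (hmono h).trans (hle2 k)
    · exact (hle2 j).trans (hanti h)
  refine ⟨Real.exp Γ, Real.exp_pos _, ?_⟩
  intro k hk
  obtain ⟨j, rfl⟩ : ∃ j, k = j + 1 := ⟨k - 1, by omega⟩
  have hb := hB1 (j + 1) (by omega)
  have h3 := h1 j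
  have h4 := h2 j
  simp only [hβ, hδ] at h3 h4
  have hp : (0 : ℝ) < 2 ^ (j + 1) := by positivity
  rw [div_le_iff₀ hp] at h3
  rw [le_div_iff₀ hp] at h4
  have h5 : Real.exp Γ ^ (2 ^ (j + 1)) = Real.exp (Γ * 2 ^ (j + 1)) := by
    rw [← Real.exp_nat_mul]
    congr 1
    push_cast
    ring
  rw [h5]
  constructor
  · rw [← Real.log_le_iff_le_exp (by positivity)]
    exact h3
  · rw [← Real.le_log_iff_exp_le (by positivity)]
    exact h4

lemma growth_w (G : ℝ) (hG0 : 0 < G) (hG : ∀ k, 1 ≤ k →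
    (b k : ℝ) ≤ G ^ (2 ^ k) ∧ G ^ (2 ^ k) ≤ 3 * (b k : ℝ)) :
    ∀ n : ℕ, 1 ≤ n → G ^ n ≤ 8 * (n : ℝ) ^ 3 * w n ∧ (w n : ℝ) ≤ 4 * (n : ℝ) ^ 2 * G ^ n := by
  have hb1 : b 1 = 1 := rfl
  have hG1 := hG 1 le_rfl
  rw [hb1] at hG1
  norm_num at hG1
  rw [abs_of_pos hG0] at hG1
  have hGge : 1 ≤ G := hG1.1
  have hGle : G ≤ 3 := by nlinarith
  intro n
  induction n using Nat.strong_induction_on with
  | _ n ih =>
    intro hn
    by_cases hn1 : n = 1
    · subst hn1
      rw [show w 1 = 1 from rfl]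
      norm_num
      constructor <;> linarith
    have hn0 : n ≠ 0 := by omega
    set k := Nat.log 2 n with hk
    have hk1 : 1 ≤ k := Nat.log_pos (by norm_num) (by omega)
    have hpow : 2 ^ k ≤ n := Nat.pow_log_le_self 2 hn0
    have hlt : n < 2 ^ (k + 1) := Nat.lt_pow_succ_log_self (by norm_num) n
    obtain ⟨r, hr⟩ : ∃ r, n = 2 ^ k + r := ⟨n - 2 ^ k, by omega⟩
    have hr2 : r < 2 ^ k := by rw [pow_succ] at hlt; omega
    obtain ⟨hGk1, hGk2⟩ := hG k hk1
    have hbk : (1 : ℝ) ≤ b k := by exact_mod_cast b_pos k hk1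
    have hn' : (2 : ℝ) ≤ n := by
      have : 2 ≤ n := by omega
      exact_mod_cast this
    rcases Nat.eq_zero_or_pos r with hr0 | hr1
    · have hnk : n = 2 ^ k := by omega
      have h1 : (w n : ℝ) ≤ 2 * b k := by
        rw [hnk]; exact_mod_cast w_pow_le k hk1
      have h2 : (b k : ℝ) ≤ 2 * w n := by
        rw [hnk]; exact_mod_cast b_le k hk1
      have h3 : G ^ n = G ^ (2 ^ k) := by rw [hnk]
      have h4 : (4 : ℝ) ≤ (n : ℝ) ^ 2 := by nlinarith
      have h5 : (8 : ℝ) ≤ (n : ℝ) ^ 3 := by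
        have : (n : ℝ) ^ 3 = n ^ 2 * n := by ring
        rw [this]; nlinarith
      have hw0 : (0 : ℝ) ≤ w n := by exact_mod_cast w_nonneg n
      have hGn : 0 < G ^ n := by positivity
      rw [h3] at hGn
      rw [h3]
      constructor
      · calc G ^ (2 ^ k) ≤ 6 * (w n : ℝ) := by linarith
          _ ≤ 8 * (n : ℝ) ^ 3 * w n := by
            apply mul_le_mul_of_nonneg_right _ hw0
            linarith
      · calc (w n : ℝ) ≤ 2 * G ^ (2 ^ k) := by linarith
          _ ≤ 4 * (n : ℝ) ^ 2 * G ^ (2 ^ k) := by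
            apply mul_le_mul_of_nonneg_right _ hGn.le
            linarith
    · obtain ⟨ih1, ih2⟩ := ih r (by omega) hr1
      have h1 : (w n : ℝ) ≤ 3 * (w r * b k) := by
        rw [hr]; exact_mod_cast w_upper k r hk1 hr2 hr1
      have h2 : (w r : ℝ) * b k ≤ w n := by
        rw [hr]; exact_mod_cast w_lower k r hk1 hr2
      have h3 : G ^ n = G ^ (2 ^ k) * G ^ r := by rw [hr, pow_add]
      have hrn : 2 * (r : ℝ) ≤ n := by
        have : 2 * r ≤ n := by omega
        exact_mod_cast this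
      have hr' : (1 : ℝ) ≤ r := by exact_mod_cast hr1
      have hwr : (0 : ℝ) ≤ w r := by exact_mod_cast w_nonneg r
      have hGr : 0 < G ^ r := by positivity
      have hGk : 0 < G ^ (2 ^ k) := by positivity
      have h4 : 4 * (r : ℝ) ^ 2 ≤ (n : ℝ) ^ 2 := by nlinarith
      have h5 : 8 * (r : ℝ) ^ 3 ≤ (n : ℝ) ^ 3 := by
        have := pow_le_pow_left₀ (by positivity) hrn 3
        calc 8 * (r : ℝ) ^ 3 = (2 * r) ^ 3 := by ring
          _ ≤ (n : ℝ) ^ 3 := this
      have h6 : 0 ≤ (n : ℝ) ^ 2 := by positivity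
      have h7 : 0 ≤ (n : ℝ) ^ 3 := by positivity
      constructor
      · calc G ^ n = G ^ (2 ^ k) * G ^ r := h3
          _ ≤ (3 * (b k : ℝ)) * (8 * (r : ℝ) ^ 3 * w r) := by
            apply mul_le_mul hGk2 ih1 hGr.le (by positivity)
          _ = (3 * (8 * (r : ℝ) ^ 3)) * (w r * b k) := by ring
          _ ≤ (8 * (n : ℝ) ^ 3) * w n := by
            apply mul_le_mul _ h2 (by positivity) (by positivity)
            linarith
      · calc (w n : ℝ) ≤ 3 * (w r * b k) := h1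
          _ ≤ 3 * ((4 * (r : ℝ) ^ 2 * G ^ r) * G ^ (2 ^ k)) := by
            apply mul_le_mul_of_nonneg_left _ (by norm_num)
            apply mul_le_mul ih2 hGk1 (by linarith) (by positivity)
          _ = (3 * (4 * (r : ℝ) ^ 2)) * G ^ n := by rw [h3]; ring
          _ ≤ (4 * (n : ℝ) ^ 2) * G ^ n := by
            apply mul_le_mul_of_nonneg_right _ (by positivity)
            linarith

/-- The quadruples `(p(2^k-1), w(2^k-1), p(2^k-2), w(2^k-2))` for `k = j+1`. -/
def vec : ℕ → ℤ × ℤ × ℤ × ℤ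
  | 0 => (1, 1, 1, 0)
  | j + 1 =>
    let v := vec j
    let a := v.1
    let b := v.2.1
    let c := v.2.2.1
    let d := v.2.2.2
    let s : ℤ := if j % 2 = 0 then -1 else 1
    let W := b + s * d
    let P := a + s * c
    (a * P + b * a, a * W + b * b, c * P + d * a, c * W + d * b)

lemma vec_spec (j : ℕ) : vec j =
    (p (2 ^ (j + 1) - 1), w (2 ^ (j + 1) - 1), p (2 ^ (j + 1) - 2), w (2 ^ (j + 1) - 2)) := by
  induction j with
  | zero => rfl
  | succ j ih =>
    have hk : 1 ≤ j + 1 := by omega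
    have h2 := two_le_pow (j + 1) hk
    have e1 : 2 ^ (j + 1 + 1) - 1 = 2 ^ (j + 1) + (2 ^ (j + 1) - 1) := by
      rw [pow_succ 2 (j + 1)]; omega
    have e2 : 2 ^ (j + 1 + 1) - 2 = 2 ^ (j + 1) + (2 ^ (j + 1) - 2) := by
      rw [pow_succ 2 (j + 1)]; omega
    have hs : ((if j % 2 = 0 then -1 else 1 : ℤ)) = (-1) ^ (j + 1) := by
      rcases Nat.even_or_odd j with h | h
      · rw [if_pos (Nat.even_iff.mp h), pow_succ, h.neg_one_pow]; norm_num
      · rw [if_neg (by rw [Nat.odd_iff.mp h]; norm_num), pow_succ, h.neg_one_pow]; norm_num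
    have hw := w_pow_eq (j + 1) hk
    have hp := p_pow_eq (j + 1) hk
    unfold b at hw
    simp only [vec, ih, hs]
    rw [e1, e2]
    rw [split rec_p (j + 1) hk (2 ^ (j + 1) - 1) (by omega),
      split rec_w (j + 1) hk (2 ^ (j + 1) - 1) (by omega),
      split rec_p (j + 1) hk (2 ^ (j + 1) - 2) (by omega),
      split rec_w (j + 1) hk (2 ^ (j + 1) - 2) (by omega), hw, hp]

lemma b_thirteen : b 13 = (vec 12).2.1 := by
  rw [vec_spec 12]; rfl

lemma num_low : ((11522 ^ 16384 : ℕ) : ℤ) < (vec 12).2.1 * ((10000 ^ 16384 : ℕ) : ℤ) := by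
  decide +kernel

lemma num_high : 3 * (vec 12).2.1 * ((10000 ^ 16384 : ℕ) : ℤ) < ((11524 ^ 16384 : ℕ) : ℤ) := by
  decide +kernel

end Pool.Agent.Work.MP_7d59ed_nt
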