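import Mathlib
import Pool.Agent.Work.MP_7d59ed_nt.Growth

set_option autoImplicit false

namespace Pool.Agent.Work.MP_7d59ed_nt

open Filter Topology

/-- From the growth of `b` to numerical bounds of the constant. -/
lemma numeric (G : ℝ) (hG0 : 0 < G) (hG : ∀ k, 1 ≤ k →
    (b k : ℝ) ≤ G ^ (2 ^ k) ∧ G ^ (2 ^ k) ≤ 3 * (b k : ℝ)) :
    (1.1522 : ℝ) ^ 2 < G ∧ G < (1.1524 : ℝ) ^ 2 := by
  obtain ⟨h1, h2⟩ := hG 13 (by norm_num)
  rw [b_thirteen] at h1 h2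
  have n1 := num_low
  have n2 := num_high
  have n1' : ((11522 ^ 16384 : ℕ) : ℝ) < (((vec 12).2.1 : ℤ) : ℝ) * ((10000 ^ 16384 : ℕ) : ℝ) := by
    have := (Int.cast_lt (R := ℝ)).mpr n1
    rw [Int.cast_mul, Int.cast_natCast, Int.cast_natCast] at this
    exact this
  have n2' : 3 * (((vec 12).2.1 : ℤ) : ℝ) * ((10000 ^ 16384 : ℕ) : ℝ) < ((11524 ^ 16384 : ℕ) : ℝ) := by
    have := (Int.cast_lt (R := ℝ)).mpr n2
    rw [Int.cast_mul, Int.cast_mul, Int.cast_natCast, Int.cast_natCast] at this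
    exact_mod_cast this
  generalize (((vec 12).2.1 : ℤ) : ℝ) = B at h1 h2 n1' n2'
  rw [Nat.cast_pow, Nat.cast_pow] at n1' n2'
  have hT : (0 : ℝ) < ((10000 : ℕ) : ℝ) ^ 16384 := by positivity
  have e1 : (((1.1522 : ℝ)) ^ 2) ^ (2 ^ 13) = ((11522 : ℕ) : ℝ) ^ 16384 / ((10000 : ℕ) : ℝ) ^ 16384 := by
    rw [← div_pow, ← pow_mul]
    norm_num
  have e2 : (((1.1524 : ℝ)) ^ 2) ^ (2 ^ 13) = ((11524 : ℕ) : ℝ) ^ 16384 / ((10000 : ℕ) : ℝ) ^ 16384 := by
    rw [← div_pow, ← pow_mul]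
    norm_num
  constructor
  · apply lt_of_pow_lt_pow_left₀ (2 ^ 13) hG0.le
    rw [e1, div_lt_iff₀ hT]
    refine lt_of_lt_of_le n1' ?_
    exact mul_le_mul_of_nonneg_right h1 hT.le
  · apply lt_of_pow_lt_pow_left₀ (2 ^ 13) (by positivity)
    rw [e2, lt_div_iff₀ hT]
    refine lt_of_le_of_lt ?_ n2'
    exact mul_le_mul_of_nonneg_right h2 hT.le

/-- Two-sided bounds for `|h m|`. -/
lemma exists_g : ∃ g : ℝ, 1.1522 < g ∧ g < 1.1524 ∧
    ∀ m : ℕ, 5 ≤ m → g ^ m / (2 * (m : ℝ) ^ 3) ≤ |(h m : ℝ)| ∧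
      |(h m : ℝ)| ≤ (m : ℝ) ^ 2 * g ^ m := by
  obtain ⟨G, hG0, hG⟩ := exists_G
  obtain ⟨hlo, hhi⟩ := numeric G hG0 hG
  have hgr := growth_w G hG0 hG
  set g := Real.sqrt G with hg
  have hgG : g ^ 2 = G := Real.sq_sqrt hG0.le
  have hg0 : 0 < g := Real.sqrt_pos.mpr hG0
  have hg1 : 1.1522 < g := by
    rw [hg]
    exact (Real.lt_sqrt (by norm_num)).mpr hlo
  have hg2 : g < 1.1524 := by
    rw [hg]
    exact (Real.sqrt_lt' (by norm_num)).mpr hhi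
  refine ⟨g, hg1, hg2, ?_⟩
  intro m hm
  have hg3 : g ^ 3 ≤ 2 := by
    have : g ^ 3 ≤ 1.1524 ^ 3 := pow_le_pow_left₀ hg0.le hg2.le 3
    refine this.trans ?_
    norm_num
  have hg3' : 1 ≤ g ^ 3 := one_le_pow₀ (by linarith)
  rcases Nat.even_or_odd' m with ⟨n, hn | hn⟩
  · -- even case
    have hn1 : 1 ≤ n := by omega
    obtain ⟨g1, g2⟩ := hgr n hn1
    have e1 : |(h m : ℝ)| = w n := by
      rw [hn, h_even]
      push_cast
      rw [abs_neg, abs_of_nonneg]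
      exact_mod_cast w_nonneg n
    have e2 : g ^ m = G ^ n := by rw [hn, pow_mul, hgG]
    have e3 : (m : ℝ) = 2 * n := by rw [hn]; push_cast; ring
    have hn' : (1 : ℝ) ≤ n := by exact_mod_cast hn1
    rw [e1, e2, e3]
    have hw : (0 : ℝ) ≤ w n := by exact_mod_cast w_nonneg n
    constructor
    · rw [div_le_iff₀ (by positivity)]
      have : (w n : ℝ) * (2 * (2 * (n : ℝ)) ^ 3) = 2 * (8 * (n : ℝ) ^ 3 * w n) := by ring
      rw [this]
      have h5 : 0 ≤ 8 * (n : ℝ) ^ 3 * w n := by positivity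
      linarith
    · have : (2 * (n : ℝ)) ^ 2 * G ^ n = 4 * (n : ℝ) ^ 2 * G ^ n := by ring
      rw [this]
      exact g2
  · -- odd case
    obtain ⟨i, rfl⟩ : ∃ i, n = i + 1 := ⟨n - 1, by omega⟩
    have hi1 : 1 ≤ i := by omega
    obtain ⟨g1, g2⟩ := hgr i hi1
    have hmi : m = 2 * i + 3 := by omega
    have ht : |(t (2 * i + 3) : ℝ)| = 1 := by
      have h1 := t_mul_self (2 * i + 3)
      rcases mul_self_eq_one_iff.mp h1 with h2 | h2 <;> rw [h2] <;> norm_num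
    have e1 : |(h m : ℝ)| = w i := by
      rw [hmi, h_odd]
      push_cast
      rw [abs_mul, ht, one_mul, h_even]
      push_cast
      rw [abs_neg, abs_of_nonneg]
      exact_mod_cast w_nonneg i
    have e2 : g ^ m = G ^ i * g ^ 3 := by rw [hmi, pow_add, pow_mul, hgG]
    have e3 : (m : ℝ) = 2 * i + 3 := by rw [hmi]; push_cast; ring
    have hi' : (1 : ℝ) ≤ i := by exact_mod_cast hi1
    have hw : (0 : ℝ) ≤ w i := by exact_mod_cast w_nonneg i
    have hGi : 0 < G ^ i := by positivity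
    have h2i : 2 * (i : ℝ) ≤ m := by rw [e3]; linarith
    have hc3 : 8 * (i : ℝ) ^ 3 ≤ (m : ℝ) ^ 3 := by
      have := pow_le_pow_left₀ (by positivity) h2i 3
      calc 8 * (i : ℝ) ^ 3 = (2 * i) ^ 3 := by ring
        _ ≤ (m : ℝ) ^ 3 := this
    have hc2 : 4 * (i : ℝ) ^ 2 ≤ (m : ℝ) ^ 2 := by
      have := pow_le_pow_left₀ (by positivity) h2i 2
      calc 4 * (i : ℝ) ^ 2 = (2 * i) ^ 2 := by ring
        _ ≤ (m : ℝ) ^ 2 := this
    rw [e1, e2]
    constructor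
    · rw [div_le_iff₀ (by positivity)]
      calc G ^ i * g ^ 3 ≤ G ^ i * 2 := mul_le_mul_of_nonneg_left hg3 hGi.le
        _ = 2 * G ^ i := by ring
        _ ≤ 2 * (8 * (i : ℝ) ^ 3 * w i) := by linarith
        _ = 2 * (w i * (8 * (i : ℝ) ^ 3)) := by ring
        _ ≤ 2 * (w i * (m : ℝ) ^ 3) := by
          apply mul_le_mul_of_nonneg_left _ (by norm_num)
          exact mul_le_mul_of_nonneg_left hc3 hw
        _ = w i * (2 * (m : ℝ) ^ 3) := by ring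
    · calc (w i : ℝ) ≤ 4 * (i : ℝ) ^ 2 * G ^ i := g2
        _ ≤ (m : ℝ) ^ 2 * G ^ i := mul_le_mul_of_nonneg_right hc2 hGi.le
        _ ≤ (m : ℝ) ^ 2 * (G ^ i * g ^ 3) := by
          apply mul_le_mul_of_nonneg_left _ (by positivity)
          nlinarith

/-- A squeeze argument for `n`-th roots. -/
lemma tendsto_root (a : ℕ → ℝ) (g : ℝ) (hg : 0 < g)
    (hb : ∀ m : ℕ, 5 ≤ m → g ^ m / (2 * (m : ℝ) ^ 3) ≤ a m ∧ a m ≤ (m : ℝ) ^ 2 * g ^ m) :
    Tendsto (fun m : ℕ => a m ^ (1 / (m : ℝ))) atTop (𝓝 g) := by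
  have hroot : Tendsto (fun m : ℕ => (m : ℝ) ^ (1 / (m : ℝ))) atTop (𝓝 1) :=
    tendsto_rpow_div.comp tendsto_natCast_atTop_atTop
  have htwo : Tendsto (fun m : ℕ => (2 : ℝ) ^ (1 / (m : ℝ))) atTop (𝓝 1) := by
    have h1 : Tendsto (fun m : ℕ => 1 / (m : ℝ)) atTop (𝓝 0) := tendsto_one_div_atTop_nhds_zero_nat
    have h2 := (Real.continuous_const_rpow (show (2 : ℝ) ≠ 0 by norm_num)).tendsto 0
    rw [Real.rpow_zero] at h2
    exact h2.comp h1
  have hlow : Tendsto (fun m : ℕ => g / ((2 : ℝ) ^ (1 / (m : ℝ)) * ((m : ℝ) ^ (1 / (m : ℝ))) ^ 3))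
      atTop (𝓝 g) := by
    have h1 := htwo.mul (hroot.pow 3)
    have h2 : Tendsto (fun m : ℕ => g / ((2 : ℝ) ^ (1 / (m : ℝ)) * ((m : ℝ) ^ (1 / (m : ℝ))) ^ 3))
        atTop (𝓝 (g / (1 * 1 ^ 3))) := tendsto_const_nhds.div h1 (by norm_num)
    have h3 : g / (1 * 1 ^ 3) = g := by norm_num
    rw [h3] at h2
    exact h2
  have hhigh : Tendsto (fun m : ℕ => ((m : ℝ) ^ (1 / (m : ℝ))) ^ 2 * g) atTop (𝓝 g) := by
    have h1 := (hroot.pow 2).mul (tendsto_const_nhds (x := g))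
    simpa using h1
  refine tendsto_of_tendsto_of_tendsto_of_le_of_le' hlow hhigh ?_ ?_
  · filter_upwards [eventually_ge_atTop 5] with m hm
    have hm0 : (0 : ℝ) < m := by
      have : 0 < m := by omega
      exact_mod_cast this
    have h1 := (hb m hm).1
    have h2 : (g ^ m / (2 * (m : ℝ) ^ 3)) ^ (1 / (m : ℝ)) ≤ a m ^ (1 / (m : ℝ)) :=
      Real.rpow_le_rpow (by positivity) h1 (by positivity)
    have h3 : (g ^ m / (2 * (m : ℝ) ^ 3)) ^ (1 / (m : ℝ))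
        = g / ((2 : ℝ) ^ (1 / (m : ℝ)) * ((m : ℝ) ^ (1 / (m : ℝ))) ^ 3) := by
      rw [Real.div_rpow (by positivity) (by positivity), Real.mul_rpow (by norm_num) (by positivity)]
      congr 1
      · rw [← Real.rpow_natCast, ← Real.rpow_mul hg.le, mul_one_div, div_self hm0.ne', Real.rpow_one]
      · congr 1
        rw [← Real.rpow_natCast, ← Real.rpow_natCast, ← Real.rpow_mul hm0.le,
          ← Real.rpow_mul hm0.le, mul_comm]
    rw [h3] at h2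
    exact h2
  · filter_upwards [eventually_ge_atTop 5] with m hm
    have hm0 : (0 : ℝ) < m := by
      have : 0 < m := by omega
      exact_mod_cast this
    have h0 : 0 ≤ a m := le_trans (by positivity) (hb m hm).1
    have h1 := (hb m hm).2
    have h2 : a m ^ (1 / (m : ℝ)) ≤ ((m : ℝ) ^ 2 * g ^ m) ^ (1 / (m : ℝ)) :=
      Real.rpow_le_rpow h0 h1 (by positivity)
    have h3 : ((m : ℝ) ^ 2 * g ^ m) ^ (1 / (m : ℝ)) = ((m : ℝ) ^ (1 / (m : ℝ))) ^ 2 * g := by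
      rw [Real.mul_rpow (by positivity) (by positivity)]
      congr 1
      · rw [← Real.rpow_natCast, ← Real.rpow_natCast, ← Real.rpow_mul hm0.le,
          ← Real.rpow_mul hm0.le, mul_comm]
      · rw [← Real.rpow_natCast, ← Real.rpow_mul hg.le, mul_one_div, div_self hm0.ne', Real.rpow_one]
    rw [h3] at h2
    exact h2

end Pool.Agent.Work.MP_7d59ed_nt
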